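import Pool.Agent.H74.Lv.Tra
import Pool.Agent.H75.Lv.Site3
import Pool.Agent.H58.TA.Vb2
import Pool.Agent.H29.Lv.Cong

set_option autoImplicit false

/-! MP_2e6055, module INST (helper74): first visits and the transfer for the system of one site. -/

namespace Pool.Agent.H74.Lv

open Pool.Agent.H7.UC Pool.Agent.H75.Perc Pool.Agent.H93.SM Pool.Agent.H75.Lv
open Pool.Agent.H74.Tri (Pos pl pr ph pe pb Bi stp orb IsTip St Rev ExitAt IsExit Jn chg tch comp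
  mem_comp comp_sub mem_comp_self comp_adj comp_conn comp_eq_of_mem adj_hl adj_hr adj_lr adjF_symm
  un mem_un ext box em p0 cf Loc inE_pe ext_em ext_out exists_em exists_first em_not_zero exists_exit
  tip_comp tipF_of IsTip_congr un_anti)
open Pool.Agent.H75.Per (CX I IsStop Meas agree_mono agree_iff)
open Classical

attribute [-instance] instDecidableEqSum

variable {c : Cf}

theorem cf_b1 (ω : Finset c.al) : cf (Sum.inl : c.V → c.al) ω = b1 ω := by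
  funext x
  unfold cf b1
  exact decide_eq_decide.2 Iff.rfl

theorem ins_iff {ω : Finset c.al} {N t : ℕ} (hN : ExitAt (box c.m c.n) (Om ω) p0 N) :
    Ins (box c.m c.n) (Om ω) p0 t ↔ t ≤ N := by
  constructor
  · intro h
    by_contra hlt
    have h1 := h (N + 1) (by omega) (by omega)
    rw [inE_pe] at h1
    rcases h1 with h1 | h1
    · exact hN.2.2.2.1 h1
    · exact hN.2.2.2.2.1 h1
  · intro h i h1 h2
    exact hN.2.1 i h1 (h2.trans h)

theorem exit_Om (hc : c.Ok) (ω : Finset c.al) : ∃ N, ExitAt (box c.m c.n) (Om ω) p0 N :=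
  exists_exit hc.m hc.n (b1 ω)

/-- helper74's and helper75's agreement -/
theorem agr_of_tri {ω ω' : Finset c.al} {t : ℕ}
    (h : Pool.Agent.H74.Tri.Agr (cf (Sum.inl : c.V → c.al) ω) (cf Sum.inl ω') t) :
    Agr (Om ω) (Om ω') t := by
  rw [cf_b1, cf_b1] at h
  intro f hf
  by_cases hb : f ∈ box c.m c.n
  · obtain ⟨x, rfl⟩ := exists_em hb
    rw [Om_em, Om_em]
    exact h x hf
  · rw [Om_out _ hb, Om_out _ hb]

/-- a face of the box which has not been asked is not revealed -/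
theorem not_rev {ω : Finset c.al} {t : ℕ} (hI : Ins (box c.m c.n) (Om ω) p0 t) {f : Fc}
    (hf : f ∈ box c.m c.n) (h : ∀ s < t, ¬ asks ω s f) : f ∉ Rev (Om ω) p0 t := by
  intro hr
  obtain ⟨x, rfl⟩ := exists_em hf
  obtain ⟨s, hs, h1, h2⟩ := exists_first hr (em_not_zero _ x)
  exact h s hs ⟨hI.mono hs.le, h1, hf, h2⟩

section fi

variable {S : Finset Fc} {ω : Finset c.al}

theorem fi_ins (hc : c.Ok) (hh : hit S ω) : Ins (box c.m c.n) (Om ω) p0 (fi S ω) := by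
  obtain ⟨f, _, h⟩ := (hit_iff hc).1 hh
  exact h.1

theorem fi_ph (hc : c.Ok) (hh : hit S ω) : ph (orb (Om ω) p0 (fi S ω)) ∈ S := by
  obtain ⟨f, hf, h⟩ := (hit_iff hc).1 hh
  rw [h.2.1]; exact hf

/-- before the first visit no face of `S` is revealed -/
theorem fresh (hc : c.Ok) (hh : hit S ω) (hS : S ⊆ box c.m c.n) {t : ℕ} (ht : t ≤ fi S ω)
    {f : Fc} (hf : f ∈ S) : f ∈ un (b1 ω) t :=
  mem_un.2 ⟨hS hf, not_rev ((fi_ins hc hh).mono ht) (hS hf)
    fun _ hs => (before_fi (lt_of_lt_of_le hs ht)).2 f hf⟩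

/-- connected set of faces -/
def Cnn (S : Finset Fc) : Prop := ∀ f ∈ S, ∀ g ∈ S, Jn (↑S : Set Fc) f g

theorem sub_comp_un {S : Finset Fc} (hC : Cnn S) {U : Finset Fc} (hS : S ⊆ U) {v : Fc}
    (hv : v ∈ S) : S ⊆ comp U v := by
  intro f hf
  rw [mem_comp]
  exact ⟨hS hf, (hC v hv f hf).mono (by exact_mod_cast hS)⟩

/-- before the first visit of `S` the set `S` is in the component of its points -/
theorem fresh_comp (hc : c.Ok) (hh : hit S ω) (hS : S ⊆ box c.m c.n) (hC : Cnn S) {v : Fc}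
    (hv : v ∈ S) {t : ℕ} (ht : t ≤ fi S ω) : S ⊆ comp (un (b1 ω) t) v :=
  sub_comp_un hC (fun _ hf => fresh hc hh hS ht hf) hv

/-- the first visit is characterised by: the face ahead is in `S`, no face of `S` is revealed -/
theorem eq_fi {t : ℕ} (hI : Ins (box c.m c.n) (Om ω) p0 t) (hS : S ⊆ un (b1 ω) t)
    (hp : ph (orb (Om ω) p0 t) ∈ S) : hit S ω ∧ fi S ω = t := by
  have ha : asks ω t (ph (orb (Om ω) p0 t)) :=
    ⟨hI, rfl, (mem_un.1 (hS hp)).1, (mem_un.1 (hS hp)).2⟩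
  refine ⟨⟨t, _, hp, ha⟩, fi_eq ⟨_, hp, ha⟩ ?_⟩
  intro s hs f hf h
  have h1 : f ∈ Rev (Om ω) p0 (s + 1) :=
    Pool.Agent.H74.Tri.Rev_succ_iff.2 (Or.inr h.2.1.symm)
  exact (mem_un.1 (hS hf)).2 (Pool.Agent.H74.Tri.Rev.mono hs h1)

end fi

/-- the unexplored component in helper75's form -/
theorem unx_eq (ω : Finset c.al) (t : ℕ) (v : Fc) :
    unx (box c.m c.n) (Om ω) p0 t v = comp (un (b1 ω) t) v := by
  unfold unx
  congr 1
  ext f
  rw [Finset.mem_sdiff, mem_expl, mem_un]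
  show _ ↔ f ∈ box c.m c.n ∧ f ∉ Rev (Om ω) p0 t
  tauto

/-- **TRANSFER** for the system of one site. -/
theorem tra (hc : c.Ok) {S ω₀ : Finset c.al} {t0 : ℕ} (hI : Ins (box c.m c.n) (Om ω₀) p0 t0)
    {z : Fc} (hz : z ∈ un (b1 ω₀) t0)
    (hS : ∀ x : c.V, em x ∈ Rev (Om ω₀) p0 t0 → Sum.inl x ∈ S)
    (hS' : ∀ x : c.V, em x ∈ comp (un (b1 ω₀) t0) z → Sum.inl x ∉ S)
    {stop : Finset Fc → (Fc → Bool) → Prop} {G : Finset Fc → (Fc → Bool) → ℝ} (hs : Loc stop)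
    (hG : Loc G) (hG0 : ∀ U col, 0 ≤ G U col) {F : Finset c.al → ℝ}
    (hF : ∀ ω : Finset c.al, Agr (Om ω₀) (Om ω) t0 →
      F ω ≤ 0 ∨ ∃ t, t0 ≤ t ∧ Ins (box c.m c.n) (Om ω) p0 t ∧ z ∈ un (b1 ω) t ∧
        ph (orb (Om ω) p0 t) ∈ comp (un (b1 ω) t) z ∧ stop (comp (un (b1 ω) t) z) (Om ω) ∧
        (∀ s, t0 ≤ s → s < t → ph (orb (Om ω) p0 s) ∈ comp (un (b1 ω) s) z →
          ¬ stop (comp (un (b1 ω) s) z) (Om ω)) ∧
        F ω ≤ G (comp (un (b1 ω) t) z) (Om ω)) :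
    CX Finset.univ S ω₀ F ≤ Ev z (fun U c _ => stop U c) (fun U c _ => G U c)
      (comp (un (b1 ω₀) t0) z) (Om ω₀) [] := by
  obtain ⟨N0, hN0⟩ := exit_Om hc ω₀
  have h := Pool.Agent.H74.Tri.trans_le (m := c.m) (n := c.n) (ι := (Sum.inl : c.V → c.al))
    (E := Finset.univ) (S := S) (ω₀ := ω₀) (t0 := t0) (N0 := N0) (z := z) (stop := stop) (G := G)
    (F := F) hc.m hc.n Sum.inl_injective (Finset.subset_univ _) (by rw [cf_b1]; exact hN0)
    ((ins_iff hN0).1 hI) (by rw [cf_b1]; exact hz)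
    (by rw [cf_b1]; exact fun x hx => ⟨Finset.mem_univ _, hS' x hx⟩)
    (by rw [cf_b1]; exact hS) hs hG hG0 (by
      intro ω _ hA N hN
      rw [cf_b1] at hN
      rcases hF ω (agr_of_tri hA) with h1 | ⟨t, h1, h2, h3, h4, h5, h6, h7⟩
      · exact Or.inl h1
      · refine Or.inr ⟨t, h1, (ins_iff hN).1 h2, ?_⟩
        rw [cf_b1]
        exact ⟨h3, h4, h5, h6, h7⟩)
  rw [cf_b1] at h
  exact h

end Pool.Agent.H74.Lv
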