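import Pool.Agent.H74.Lv.Pot

set_option autoImplicit false

/-! MP_2e6055, module INST (helper74): the fields os1, os2, f4 of the system of one site. -/

namespace Pool.Agent.H74.Lv

open Pool.Agent.H7.UC Pool.Agent.H75.Perc Pool.Agent.H93.SM Pool.Agent.H75.Lv
open Pool.Agent.H74.Tri (Pos pl pr ph pe pb Bi stp orb IsTip St Rev ExitAt IsExit Jn chg tch comp
  mem_comp comp_sub mem_comp_self comp_adj comp_conn comp_eq_of_mem adj_hl adj_hr adj_lr adjF_symm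
  un mem_un ext box em p0 cf Loc inE_pe ext_em ext_out exists_em exists_first em_not_zero exists_exit
  tip_comp tipF_of IsTip_congr un_anti St_un pl_un)
open Pool.Agent.H75.Per (CX I IsStop Meas agree_mono agree_iff)
open Classical

attribute [-instance] instDecidableEqSum

variable {c : Cf}

/-! ### Stopping rules -/

/-- visit of the box `B`, or a face of `B` is cut off -/
def stB (B : Finset Fc) (U : Finset Fc) (col : Fc → Bool) : Prop :=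
  (∃ q, IsTip U col q ∧ ph q ∈ B) ∨ ¬ B ⊆ U

/-- launch -/
def stA (c : Cf) (j : ℕ) (z0 : Fc) (U : Finset Fc) (col : Fc → Bool) : Prop :=
  c.En j z0 ⊆ U ∧ Adm c.g c.s3 (c.un j) U col z0 ∧ ∃ q, IsTip U col q ∧ ph q ∈ c.En j z0

theorem loc_iff {P : Finset Fc → (Fc → Bool) → Prop}
    (h : ∀ (U : Finset Fc) (Ω Ω' : Fc → Bool), (∀ f, f ∉ U → tch ↑U f → Ω f = Ω' f) → P U Ω →
      P U Ω') : Loc P := fun U Ω Ω' h1 =>
  propext ⟨h U Ω Ω' h1, h U Ω' Ω fun f h2 h3 => (h1 f h2 h3).symm⟩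

theorem loc_stB (B : Finset Fc) : Loc (stB B) := by
  refine loc_iff fun U Ω Ω' h => ?_
  rintro (⟨q, h1, h2⟩ | h1)
  · exact Or.inl ⟨q, IsTip_congr h h1, h2⟩
  · exact Or.inr h1

theorem loc_stA (hA : ADMC) (c : Cf) (j : ℕ) (z0 : Fc) : Loc (stA c j z0) := by
  refine loc_iff fun U Ω Ω' h => ?_
  rintro ⟨h1, h2, q, h3, h4⟩
  exact ⟨h1, (hA _ _ _ _ _ _ _ fun f h5 h6 => h f h6 h5).1 h2, q, IsTip_congr h h3, h4⟩

theorem loc_or {P Q : Finset Fc → (Fc → Bool) → Prop} (hP : Loc P) (hQ : Loc Q) :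
    Loc (fun U col => P U col ∨ Q U col) := by
  intro U Ω Ω' h
  show (P U Ω ∨ Q U Ω) = (P U Ω' ∨ Q U Ω')
  rw [hP U Ω Ω' h, hQ U Ω Ω' h]

/-! ### Times of the exploration -/

theorem tip_at (hc : c.Ok) {ω : Finset c.al} {s : ℕ} {v : Fc} (hv : v ∈ un (b1 ω) s)
    (hp : ph (orb (Om ω) p0 s) ∈ comp (un (b1 ω) s) v) :
    IsTip (comp (un (b1 ω) s) v) (Om ω) (orb (Om ω) p0 s) :=
  tip_comp hc.m hc.n hv hp

theorem st_at (hc : c.Ok) {ω : Finset c.al} {s : ℕ} {v : Fc} (hv : v ∈ un (b1 ω) s) :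
    St (comp (un (b1 ω) s) v) (Om ω) := St_un hc.m hc.n _ s v hv

theorem tip_eq (hc : c.Ok) {ω : Finset c.al} {s : ℕ} {v : Fc} (hv : v ∈ un (b1 ω) s)
    (hp : ph (orb (Om ω) p0 s) ∈ comp (un (b1 ω) s) v) {q : Pos}
    (hq : IsTip (comp (un (b1 ω) s) v) (Om ω) q) : q = orb (Om ω) p0 s :=
  Pool.Agent.H98.Tri.tipU _ _ (st_at hc hv) _ _ hq (tip_at hc hv hp)

section visit

variable {S : Finset Fc} {ω : Finset c.al} {v : Fc}

theorem ph_comp (hc : c.Ok) (hh : hit S ω) (hS : S ⊆ box c.m c.n) (hC : Cnn S) (hv : v ∈ S) :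
    ph (orb (Om ω) p0 (fi S ω)) ∈ comp (un (b1 ω) (fi S ω)) v :=
  fresh_comp hc hh hS hC hv le_rfl (fi_ph hc hh)

theorem is_stB (hc : c.Ok) (hh : hit S ω) (hS : S ⊆ box c.m c.n) (hC : Cnn S) (hv : v ∈ S) :
    stB S (comp (un (b1 ω) (fi S ω)) v) (Om ω) :=
  Or.inl ⟨_, tip_at hc (fresh hc hh hS le_rfl hv) (ph_comp hc hh hS hC hv), fi_ph hc hh⟩

/-- no visit of a subset of `S` before the first visit of `S` -/
theorem no_stB (hc : c.Ok) (hh : hit S ω) (hS : S ⊆ box c.m c.n) (hC : Cnn S) (hv : v ∈ S)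
    {B : Finset Fc} (hB : B ⊆ S) {s : ℕ} (hs : s < fi S ω)
    (hp : ph (orb (Om ω) p0 s) ∈ comp (un (b1 ω) s) v) :
    ¬ stB B (comp (un (b1 ω) s) v) (Om ω) := by
  have hvu := fresh hc hh hS hs.le hv
  rintro (⟨q, h1, h2⟩ | h1)
  · have e := tip_eq hc hvu hp h1
    rw [e] at h2
    have h3 := fresh hc hh hS hs.le (hB h2)
    exact (before_fi hs).2 _ (hB h2) ⟨(before_fi hs).1, rfl, (mem_un.1 h3).1, (mem_un.1 h3).2⟩
  · exact h1 (hB.trans (fresh_comp hc hh hS hC hv hs.le))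

end visit

theorem v_mem_En (hc : c.Ok) (j : ℕ) (v : Fc) : v ∈ c.En j (c.sq j v) := by
  have h1 := sq_near hc j v
  refine Bx_mono ?_ h1
  have h2 := hc.hs8 j
  have h3 := hc.hs_pos j
  linarith

theorem z_mem_En (hc : c.Ok) (j : ℕ) (z : Fc) : z ∈ c.En j z := by
  have h4 := hc.hu_pos j
  unfold Cf.En
  rw [mem_Bx]
  constructor <;> · rw [sub_self, abs_zero]; omega

theorem cnn_En (j : ℕ) (z0 : Fc) : Cnn (c.En j z0) := cnn_Bx _ _

section launch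

variable {v : Fc} {j0 k : ℕ} {ω : Finset c.al}

theorem is_stA (hc : c.Ok) (hb : c.En (j0 - k) (c.sq (j0 - k) v) ⊆ box c.m c.n)
    (hm : mad v j0 k ω) :
    stA c (j0 - k) (c.sq (j0 - k) v)
      (comp (un (b1 ω) (fi (c.En (j0 - k) (c.sq (j0 - k) v)) ω)) v) (Om ω) := by
  obtain ⟨h1, h2, h3, h4, h5⟩ := hm
  have hv := v_mem_En hc (j0 - k) v
  have hz := z_mem_En hc (j0 - k) (c.sq (j0 - k) v)
  have hE := fresh_comp hc h2 hb (cnn_En _ _) hv le_rfl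
  have e : comp (un (b1 ω) (fi (c.En (j0 - k) (c.sq (j0 - k) v)) ω)) (c.sq (j0 - k) v) =
      comp (un (b1 ω) (fi (c.En (j0 - k) (c.sq (j0 - k) v)) ω)) v :=
    comp_eq_of_mem (fresh hc h2 hb le_rfl hv) (hE hz)
  refine ⟨hE, ?_, _, tip_at hc (fresh hc h2 hb le_rfl hv) (hE h3), h3⟩
  rw [← e]
  exact h5

/-- if the launch rule holds, the attempt is made -/
theorem mad_of (hc : c.Ok) (hj : 1 ≤ j0 - k) {s : ℕ}
    (hI : Ins (box c.m c.n) (Om ω) p0 s) (hv : v ∈ un (b1 ω) s)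
    (hp : ph (orb (Om ω) p0 s) ∈ comp (un (b1 ω) s) v)
    (h : stA c (j0 - k) (c.sq (j0 - k) v) (comp (un (b1 ω) s) v) (Om ω)) :
    mad v j0 k ω ∧ fi (c.En (j0 - k) (c.sq (j0 - k) v)) ω = s := by
  obtain ⟨h1, h2, q, h3, h4⟩ := h
  have e := tip_eq hc hv hp h3
  rw [e] at h4
  have hE : c.En (j0 - k) (c.sq (j0 - k) v) ⊆ un (b1 ω) s := h1.trans (comp_sub _ _)
  obtain ⟨h5, h6⟩ := eq_fi hI hE h4
  have hz := z_mem_En hc (j0 - k) (c.sq (j0 - k) v)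
  have e2 : comp (un (b1 ω) s) (c.sq (j0 - k) v) = comp (un (b1 ω) s) v :=
    comp_eq_of_mem hv (h1 hz)
  refine ⟨⟨hj, h5, ?_⟩, h6⟩
  rw [h6]
  refine ⟨h4, fun f hf => (mem_un.1 (hE hf)).2, ?_⟩
  rw [e2]
  exact h2

end launch

/-! ### OS along the exploration -/

theorem os_dst (hOS : OS) {l e : ℝ} (hl : 1 ≤ l) (he : 0 < e) : ∃ K : ℝ, 0 < K ∧
    ∀ (U : Finset Fc) (col : Fc → Bool) (z : Fc), St U col → z ∈ U → K ≤ dst U z →
    ∀ stop : Finset Fc → (Fc → Bool) → Prop, (∀ U' col', dst U' z < dst U z / l → stop U' col') →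
    Ev z (fun U' c _ => stop U' c) (fun U' c _ => gv U' c z) U col [] ≤
      gv U col z + e * dst U z ^ (-(1 / 4) : ℝ) := by
  obtain ⟨K, hK, h⟩ := hOS l hl e he
  refine ⟨K, hK, fun U col z hS hz hd stop hst => ?_⟩
  exact h (dst U z) hd U col z hS hz (by linarith) (by linarith) _ fun U' col' _ h' => hst U' col' h'

theorem os_core (hOS : OS) {l e : ℝ} (hl : 1 ≤ l) (he : 0 < e) : ∃ K : ℝ, 0 < K ∧
    ∀ (c : Cf), c.Ok → ∀ (S ω₀ : Finset c.al) (t0 : ℕ) (v : Fc) (R : ℝ), 0 < R →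
    Ins (box c.m c.n) (Om ω₀) p0 t0 → v ∈ un (b1 ω₀) t0 →
    (∀ x : c.V, em x ∈ Rev (Om ω₀) p0 t0 → Sum.inl x ∈ S) →
    (∀ x : c.V, em x ∈ comp (un (b1 ω₀) t0) v → Sum.inl x ∉ S) →
    K ≤ dst (comp (un (b1 ω₀) t0) v) v →
    ∀ stop : Finset Fc → (Fc → Bool) → Prop, Loc stop →
    (∀ U' col', dst U' v < dst (comp (un (b1 ω₀) t0) v) v / l → stop U' col') →
    ∀ F : Finset c.al → ℝ, (∀ ω : Finset c.al, Agr (Om ω₀) (Om ω) t0 →
      F ω ≤ 0 ∨ ∃ t, t0 ≤ t ∧ Ins (box c.m c.n) (Om ω) p0 t ∧ v ∈ un (b1 ω) t ∧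
        ph (orb (Om ω) p0 t) ∈ comp (un (b1 ω) t) v ∧ stop (comp (un (b1 ω) t) v) (Om ω) ∧
        (∀ s, t0 ≤ s → s < t → ph (orb (Om ω) p0 s) ∈ comp (un (b1 ω) s) v →
          ¬ stop (comp (un (b1 ω) s) v) (Om ω)) ∧
        F ω ≤ R * gv (comp (un (b1 ω) t) v) (Om ω) v) →
    CX Finset.univ S ω₀ F ≤ R * gv (comp (un (b1 ω₀) t0) v) (Om ω₀) v +
      R * dst (comp (un (b1 ω₀) t0) v) v ^ (-(1 / 4) : ℝ) * e := by
  obtain ⟨K, hK, h⟩ := os_dst hOS hl he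
  refine ⟨K, hK, ?_⟩
  intro c hc S ω₀ t0 v R hR hI hz hS hS' hKd stop hs hst F hF
  have h1 := tra hc hI hz hS hS' hs (gv_loc v) (fun _ _ => gv_nonneg _ _ _)
    (F := fun ω => R⁻¹ * F ω) (by
      intro ω hA
      have hRi : 0 < R⁻¹ := inv_pos.2 hR
      rcases hF ω hA with h2 | ⟨t, h2, h3, h4, h5, h6, h7, h8⟩
      · left
        exact mul_nonpos_of_nonneg_of_nonpos hRi.le h2
      · right
        refine ⟨t, h2, h3, h4, h5, h6, h7, ?_⟩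
        calc R⁻¹ * F ω ≤ R⁻¹ * (R * gv (comp (un (b1 ω) t) v) (Om ω) v) :=
              mul_le_mul_of_nonneg_left h8 hRi.le
          _ = _ := by rw [← mul_assoc, inv_mul_cancel₀ hR.ne', one_mul])
  rw [Pool.Agent.H75.Per.CX_smul] at h1
  have h2 := h (comp (un (b1 ω₀) t0) v) (Om ω₀) v (st_at hc hz) (mem_comp_self hz) hKd stop hst
  have h3 := h1.trans h2
  have h4 : R * (R⁻¹ * CX Finset.univ S ω₀ F) ≤ R * (gv (comp (un (b1 ω₀) t0) v) (Om ω₀) v +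
      e * dst (comp (un (b1 ω₀) t0) v) v ^ (-(1 / 4) : ℝ)) := mul_le_mul_of_nonneg_left h3 hR.le
  rw [← mul_assoc, mul_inv_cancel₀ hR.ne', one_mul] at h4
  refine h4.trans (le_of_eq ?_)
  ring

end Pool.Agent.H74.Lv
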