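import Pool.Agent.H74.Lv.Os

set_option autoImplicit false

/-! MP_2e6055, module INST (helper74): the fields os1, os2, f4 of the system of one site. -/

namespace Pool.Agent.H74.Lv

open Pool.Agent.H7.UC Pool.Agent.H75.Perc Pool.Agent.H93.SM Pool.Agent.H75.Lv
open Pool.Agent.H74.Tri (Pos pl pr ph pe pb Bi stp orb IsTip St Rev ExitAt IsExit Jn chg tch comp
  mem_comp comp_sub mem_comp_self comp_adj comp_conn comp_eq_of_mem adj_hl adj_hr adj_lr adjF_symm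
  un mem_un ext box em p0 cf Loc inE_pe ext_em ext_out exists_em exists_first em_not_zero exists_exit
  tip_comp tipF_of IsTip_congr un_anti St_un pl_un)
open Pool.Agent.H75.Per (CX I I_true I_false IsStop Meas agree_mono agree_iff)
open Classical

attribute [-instance] instDecidableEqSum

variable {c : Cf}

/-! ### Numbers -/

theorem rho_succ (hc : c.Ok) (j : ℕ) : c.rho (j + 1) = c.l * c.rho j := by
  unfold Cf.rho
  rw [hc.un_succ]
  ring

theorem l_pos (hc : c.Ok) : 1 ≤ c.l := by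
  have h3 := hc.l
  have h4 := hc.L
  have h5 := hc.g.N8
  have h6 := hc.g.h64
  have h7 : (0 : ℤ) < 64 * c.L * c.g.N * c.g.h := by positivity
  omega

theorem a_le_un (hc : c.Ok) (j : ℕ) : (c.a : ℤ) ≤ c.un j := by
  have h3 : 1 ≤ c.l ^ j := Nat.one_le_pow _ _ (l_pos hc)
  unfold Cf.un
  have : c.a * 1 ≤ c.a * c.l ^ j := Nat.mul_le_mul le_rfl h3
  rw [mul_one] at this
  exact_mod_cast this

theorem r_rho (hc : c.Ok) {r : ℝ} (hr : r = (c.l : ℝ) ^ ((1 / 4) : ℝ)) (j : ℕ) :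
    r * (c.rho j : ℝ) ^ ((1 / 4) : ℝ) = (c.rho (j + 1) : ℝ) ^ ((1 / 4) : ℝ) := by
  rw [hr, rho_succ hc, Int.cast_mul, Real.mul_rpow (by positivity) (rho_nonneg hc j)]
  norm_cast

/-- first visit of `Bx v ρ_j`: the distance -/
theorem dst_T (hc : c.Ok) {v : Fc} {j : ℕ} {ω : Finset c.al}
    (hb : Bx v (c.rho j) ⊆ box c.m c.n) (hh : hit (Bx v (c.rho j)) ω) :
    (c.rho j : ℝ) ≤ 2 * dst (comp (un (b1 ω) (fi (Bx v (c.rho j)) ω)) v) v ∧
    dst (comp (un (b1 ω) (fi (Bx v (c.rho j)) ω)) v) v ≤ 3 * c.rho j := by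
  have h0 := (hc.rho_pos j).le
  have hv : v ∈ Bx v (c.rho j) := by rw [mem_Bx, sub_self, sub_self, abs_zero]; exact ⟨h0, h0⟩
  have h1 := le_dst h0 (fresh_comp hc hh hb (cnn_Bx _ _) hv le_rfl)
  have h2 := dst_le (U := comp (un (b1 ω) (fi (Bx v (c.rho j)) ω)) v) (z := v) h0 (fi_ph hc hh)
    (fun h => (pl_un (b1 ω) (fi (Bx v (c.rho j)) ω)).1 (comp_sub _ _ h))
  have h3 := hc.hu_le_rho j
  have h4 := hc.hu_pos j
  have h5 : (6400 * 128 : ℤ) ≤ c.rho j := by linarith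
  have h6 : (6400 * 128 : ℝ) ≤ (c.rho j : ℝ) := by exact_mod_cast h5
  constructor <;> linarith

/-- first visit of the end box: the distance -/
theorem dst_A (hc : c.Ok) {v : Fc} {j : ℕ} {ω : Finset c.al}
    (hb : c.En j (c.sq j v) ⊆ box c.m c.n) (hh : hit (c.En j (c.sq j v)) ω) :
    (c.rho j : ℝ) ≤ 4 * c.g.N * dst (comp (un (b1 ω) (fi (c.En j (c.sq j v)) ω)) v) v ∧
    dst (comp (un (b1 ω) (fi (c.En j (c.sq j v)) ω)) v) v ≤ 3 * c.rho j := by
  have h0 := (hc.rho_pos j).le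
  have h4 := hc.hu_pos j
  have hh8 := hc.hs8 j
  have hhp := hc.hs_pos j
  have hE := fresh_comp hc hh hb (cnn_En _ _) (v_mem_En hc j v) le_rfl
  have h7 : Bx v (7 * c.hs j) ⊆ c.En j (c.sq j v) := Bx_sub (sq_near hc j v) (by linarith)
  have h1 := le_dst (by linarith) (h7.trans hE)
  have h2 := dst_le (U := comp (un (b1 ω) (fi (c.En j (c.sq j v)) ω)) v) (z := v) h0
    (En_sub hc j v (fi_ph hc hh))
    (fun h => (pl_un (b1 ω) (fi (c.En j (c.sq j v)) ω)).1 (comp_sub _ _ h))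
  have h3 := hc.hu_le_rho j
  have h5 : (6400 * 128 : ℤ) ≤ c.rho j := by linarith
  have h6 : (6400 * 128 : ℝ) ≤ (c.rho j : ℝ) := by exact_mod_cast h5
  refine ⟨?_, by linarith⟩
  have h8 : (c.rho j : ℝ) = 2 * c.g.N * (8 * (c.hs j : ℝ)) := by
    have := hc.rho_eq j
    rw [← hh8] at this
    rw [this]; push_cast; ring
  have h9 : (64 : ℝ) ≤ c.g.N := by exact_mod_cast hc.g.N8
  have h10 : (800 : ℝ) ≤ (c.hs j : ℝ) := by
    have : (800 : ℤ) ≤ c.hs j := by omega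
    exact_mod_cast this
  rw [h8]
  push_cast at h1
  have h11 : 4 * (c.hs j : ℝ) ≤ dst (comp (un (b1 ω) (fi (c.En j (c.sq j v)) ω)) v) v := by
    linarith
  nlinarith

/-- if the distance is small, the box `Bx v ρ_j` is not in the domain -/
theorem stB_of_dst (hc : c.Ok) {v : Fc} {j : ℕ} {d : ℝ} (hd : d ≤ 3 * c.rho (j + 1))
    (U' : Finset Fc) (col' : Fc → Bool) (h : dst U' v < d / (6 * c.l)) :
    stB (Bx v (c.rho j)) U' col' := by
  right
  intro hB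
  have h0 := (hc.rho_pos j).le
  have h1 := le_dst h0 hB
  have h3 := hc.hu_le_rho j
  have h4 := hc.hu_pos j
  have h5 : (6400 * 128 : ℤ) ≤ c.rho j := by linarith
  have h6 : (6400 * 128 : ℝ) ≤ (c.rho j : ℝ) := by exact_mod_cast h5
  have hl : (1 : ℝ) ≤ c.l := by exact_mod_cast l_pos hc
  rw [rho_succ hc] at hd
  push_cast at hd
  rw [lt_div_iff₀ (by linarith)] at h
  nlinarith

section field

variable {v : Fc} {j0 : ℕ}

/-- the region of the first visit -/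
theorem Rg_hyp (S : Finset Fc) (ω₀ : Finset c.al) (z : Fc) :
    (∀ x : c.V, em x ∈ Rev (Om ω₀) p0 (fi S ω₀) → Sum.inl x ∈ Rg S ω₀) ∧
    (∀ x : c.V, em x ∈ comp (un (b1 ω₀) (fi S ω₀)) z → Sum.inl x ∉ Rg S ω₀) := by
  refine ⟨fun x hx => mem_Rg.2 hx, fun x hx h => ?_⟩
  exact (mem_un.1 (comp_sub _ _ hx)).2 (mem_Rg.1 h)

/-- **os1** -/
theorem os1_field (hOS : OS) (hA : ADMC) {l : ℕ} (hl : 1 ≤ l) {e : ℝ} (he : 0 < e) : ∃ a0 : ℕ,
    ∀ c : Cf, c.Ok → c.l = l → a0 ≤ c.a → ∀ (v : Fc) (j0 k : ℕ), k < j0 →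
    Bx v (c.rho (j0 - k)) ⊆ box c.m c.n → ∀ r : ℝ, r = (l : ℝ) ^ ((1 / 4) : ℝ) →
    ∀ ω : Finset c.al, alv v j0 k ω →
    CX Finset.univ (Rg (Bx v (c.rho (j0 - k))) ω) ω (fun ω' => I (mad v j0 k ω') * GGA v j0 k ω' +
      I (alv v j0 (k + 1) ω' ∧ ¬ mad v j0 k ω') * (r * GG v j0 (k + 1) ω')) ≤
      GG v j0 k ω + e := by
  have hl1 : (1 : ℝ) ≤ 6 * l := by
    have : (1 : ℝ) ≤ l := by exact_mod_cast hl
    linarith
  obtain ⟨K, hK, hcore⟩ := os_core hOS hl1 (show 0 < e / 2 by linarith)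
  refine ⟨⌈K⌉₊, ?_⟩
  intro c hc hcl hca v j0 k hk hb r hr ω₀ hal
  have hj : j0 - k = j0 - (k + 1) + 1 := by omega
  set j := j0 - (k + 1) with hjdef
  have hh : hit (Bx v (c.rho (j0 - k))) ω₀ := hal
  have hv : v ∈ Bx v (c.rho (j0 - k)) := by
    have h0 := (hc.rho_pos (j0 - k)).le
    rw [mem_Bx, sub_self, sub_self, abs_zero]; exact ⟨h0, h0⟩
  have hv' : v ∈ Bx v (c.rho j) := by
    have h0 := (hc.rho_pos j).le
    rw [mem_Bx, sub_self, sub_self, abs_zero]; exact ⟨h0, h0⟩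
  set t0 := fi (Bx v (c.rho (j0 - k))) ω₀ with ht0
  have hEb : c.En (j0 - k) (c.sq (j0 - k) v) ⊆ box c.m c.n := (En_sub hc _ _).trans hb
  have hBE : Bx v (c.rho j) ⊆ c.En (j0 - k) (c.sq (j0 - k) v) := by
    rw [hj]; exact sub_En hc j v
  have hBb : Bx v (c.rho j) ⊆ box c.m c.n := hBE.trans hEb
  obtain ⟨hd1, hd2⟩ := dst_T hc hb hh
  have hR : 0 < (c.rho (j0 - k) : ℝ) ^ ((1 / 4) : ℝ) :=
    Real.rpow_pos_of_pos (by exact_mod_cast hc.rho_pos _) _
  have hKd : K ≤ dst (comp (un (b1 ω₀) t0) v) v := by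
    have h1 : K ≤ (⌈K⌉₊ : ℝ) := Nat.le_ceil K
    have h2 : ((⌈K⌉₊ : ℕ) : ℝ) ≤ (c.a : ℝ) := by exact_mod_cast hca
    have h3 : ((c.a : ℤ) : ℝ) ≤ ((c.un (j0 - k) : ℤ) : ℝ) := by exact_mod_cast a_le_un hc (j0 - k)
    have h4 : 2 * (c.un (j0 - k) : ℤ) ≤ c.rho (j0 - k) := by
      have := hc.hu_le_rho (j0 - k)
      have := hc.u_le_hu (j0 - k)
      have := hc.un_pos (j0 - k)
      linarith
    have h5 : 2 * ((c.un (j0 - k) : ℤ) : ℝ) ≤ c.rho (j0 - k) := by exact_mod_cast h4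
    push_cast at h3 h5
    linarith
  have hreg := Rg_hyp (Bx v (c.rho (j0 - k))) ω₀ v
  have key := hcore c hc (Rg (Bx v (c.rho (j0 - k))) ω₀) ω₀ t0 v
    ((c.rho (j0 - k) : ℝ) ^ ((1 / 4) : ℝ)) hR (fi_ins hc hh) (fresh hc hh hb le_rfl hv)
    hreg.1 hreg.2 hKd
    (fun U col => stA c (j0 - k) (c.sq (j0 - k) v) U col ∨ stB (Bx v (c.rho j)) U col)
    (loc_or (loc_stA hA _ _ _) (loc_stB _))
    (fun U' col' h => Or.inr (stB_of_dst hc (d := dst (comp (un (b1 ω₀) t0) v) v)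
      (by rw [← hj]; exact hd2) U' col' (by rw [hcl]; exact h)))
    (fun ω' => I (mad v j0 k ω') * GGA v j0 k ω' +
      I (alv v j0 (k + 1) ω' ∧ ¬ mad v j0 k ω') * (r * GG v j0 (k + 1) ω')) (by
    intro ω hag
    have hfi : fi (Bx v (c.rho (j0 - k))) ω = t0 := fi_agr hc hag
    by_cases hm : mad v j0 k ω
    · right
      have hhE := hm.2.1
      have hvE := v_mem_En hc (j0 - k) v
      have hn : ¬ (alv v j0 (k + 1) ω ∧ ¬ mad v j0 k ω) := fun h => h.2 hm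
      have hle : t0 ≤ fi (c.En (j0 - k) (c.sq (j0 - k) v)) ω := by
        rw [← hfi]
        exact fi_mono hc (En_sub hc _ _) ω
      refine ⟨fi (c.En (j0 - k) (c.sq (j0 - k) v)) ω, hle, fi_ins hc hhE,
        fresh hc hhE hEb le_rfl hvE, ph_comp hc hhE hEb (cnn_En _ _) hvE,
        Or.inl (is_stA hc hEb hm), ?_, ?_⟩
      · intro s hs1 hs2 hps hst
        rcases hst with hst | hst
        · have h1 := (mad_of hc (by omega) ((fi_ins hc hhE).mono hs2.le)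
            (fresh hc hhE hEb hs2.le hvE) hps hst).2
          omega
        · exact no_stB hc hhE hEb (cnn_En _ _) hvE hBE hs2 hps hst
      · rw [I_true hm, I_false hn, one_mul, zero_mul, add_zero]
        unfold GGA
        rw [if_pos hm, gq_eq]
    · by_cases ha : alv v j0 (k + 1) ω
      · right
        have hhB : hit (Bx v (c.rho j)) ω := ha
        have hy : alv v j0 (k + 1) ω ∧ ¬ mad v j0 k ω := ⟨ha, hm⟩
        have hle : t0 ≤ fi (Bx v (c.rho j)) ω := by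
          rw [← hfi]
          exact fi_mono hc (hBE.trans (En_sub hc _ _)) ω
        refine ⟨fi (Bx v (c.rho j)) ω, hle, fi_ins hc hhB,
          fresh hc hhB hBb le_rfl hv', ph_comp hc hhB hBb (cnn_Bx _ _) hv',
          Or.inr (is_stB hc hhB hBb (cnn_Bx _ _) hv'), ?_, ?_⟩
        · intro s hs1 hs2 hps hst
          rcases hst with hst | hst
          · exact hm (mad_of hc (by omega) ((fi_ins hc hhB).mono hs2.le)
              (fresh hc hhB hBb hs2.le hv') hps hst).1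
          · exact no_stB hc hhB hBb (cnn_Bx _ _) hv' (Finset.Subset.refl _) hs2 hps hst
        · rw [I_false hm, I_true hy, one_mul, zero_mul, zero_add]
          unfold GG
          rw [if_pos ha, ← hjdef, gq_eq, ← mul_assoc, r_rho hc (by rw [hr, hcl]), ← hj]
      · left
        have hn : ¬ (alv v j0 (k + 1) ω ∧ ¬ mad v j0 k ω) := fun h => ha h.1
        rw [I_false hm, I_false hn, zero_mul, zero_mul, add_zero])
  refine key.trans ?_
  have h2 := rho_pow (j := j0 - k) hc (d := dst (comp (un (b1 ω₀) t0) v) v) (B := 2)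
    (by linarith) (by norm_num) hd1
  have h3 : GG v j0 k ω₀ = (c.rho (j0 - k) : ℝ) ^ ((1 / 4) : ℝ) *
      gv (comp (un (b1 ω₀) t0) v) (Om ω₀) v := by
    unfold GG
    rw [if_pos hal, gq_eq]
  rw [h3]
  have h4 : (c.rho (j0 - k) : ℝ) ^ ((1 / 4) : ℝ) *
      dst (comp (un (b1 ω₀) t0) v) v ^ (-(1 / 4) : ℝ) * (e / 2) ≤ 2 * (e / 2) :=
    mul_le_mul_of_nonneg_right h2 (by linarith)
  linarith

end field

end Pool.Agent.H74.Lv
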