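import Pool.Agent.H74.Lv.Os1

set_option autoImplicit false

/-! MP_2e6055, module INST (helper74): the fields os2, f4 and the bounds of the potentials. -/

namespace Pool.Agent.H74.Lv

open Pool.Agent.H7.UC Pool.Agent.H75.Perc Pool.Agent.H93.SM Pool.Agent.H75.Lv
open Pool.Agent.H74.Tri (Pos pl pr ph pe pb Bi stp orb IsTip St Rev ExitAt IsExit Jn chg tch comp
  mem_comp comp_sub mem_comp_self comp_adj comp_conn comp_eq_of_mem adj_hl adj_hr adj_lr adjF_symm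
  un mem_un ext box em p0 cf Loc inE_pe ext_em ext_out exists_em exists_first em_not_zero exists_exit
  tip_comp tipF_of IsTip_congr un_anti St_un pl_un)
open Pool.Agent.H75.Per (CX I I_true I_false IsStop Meas agree_mono agree_iff)
open Classical

attribute [-instance] instDecidableEqSum

variable {c : Cf}

theorem self_mem_Bx {v : Fc} {s : ℤ} (h : 0 ≤ s) : v ∈ Bx v s := by
  rw [mem_Bx, sub_self, sub_self, abs_zero]
  exact ⟨h, h⟩

/-- **os2** -/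
theorem os2_field (hOS : OS) {N : ℤ} (hN : 64 ≤ N) {l : ℕ} (hl : 1 ≤ l) {e : ℝ} (he : 0 < e) :
    ∃ a0 : ℕ, ∀ c : Cf, c.Ok → c.g.N = N → c.l = l → a0 ≤ c.a → ∀ (v : Fc) (j0 k : ℕ), k < j0 →
    Bx v (c.rho (j0 - k)) ⊆ box c.m c.n → ∀ r : ℝ, r = (l : ℝ) ^ ((1 / 4) : ℝ) →
    ∀ ω : Finset c.al, mad v j0 k ω →
    CX Finset.univ (AR v j0 k ω) ω (fun ω' => I (alv v j0 (k + 1) ω') *
      (r * GG v j0 (k + 1) ω')) ≤ GGA v j0 k ω + e := by
  have hl1 : (1 : ℝ) ≤ 6 * l := by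
    have : (1 : ℝ) ≤ l := by exact_mod_cast hl
    linarith
  have hN1 : (64 : ℝ) ≤ N := by exact_mod_cast hN
  obtain ⟨K, hK, hcore⟩ := os_core hOS hl1 (show 0 < e / (4 * N) by positivity)
  refine ⟨⌈K⌉₊, ?_⟩
  intro c hc hcN hcl hca v j0 k hk hb r hr ω₀ hm
  have hj : j0 - k = j0 - (k + 1) + 1 := by omega
  have hAR : AR v j0 k ω₀ = Rg (c.En (j0 - k) (c.sq (j0 - k) v)) ω₀ := by
    unfold AR
    rw [if_pos (by omega)]
  rw [hAR]
  set j := j0 - (k + 1) with hjdef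
  have hh : hit (c.En (j0 - k) (c.sq (j0 - k) v)) ω₀ := hm.2.1
  have hv := v_mem_En hc (j0 - k) v
  have hv' : v ∈ Bx v (c.rho j) := self_mem_Bx (hc.rho_pos j).le
  have hEb : c.En (j0 - k) (c.sq (j0 - k) v) ⊆ box c.m c.n := (En_sub hc _ _).trans hb
  have hBE : Bx v (c.rho j) ⊆ c.En (j0 - k) (c.sq (j0 - k) v) := by
    rw [hj]; exact sub_En hc j v
  have hBb : Bx v (c.rho j) ⊆ box c.m c.n := hBE.trans hEb
  obtain ⟨hd1, hd2⟩ := dst_A hc hEb hh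
  set t0 := fi (c.En (j0 - k) (c.sq (j0 - k) v)) ω₀ with ht0
  have hR : 0 < (c.rho (j0 - k) : ℝ) ^ ((1 / 4) : ℝ) :=
    Real.rpow_pos_of_pos (by exact_mod_cast hc.rho_pos _) _
  have hKd : K ≤ dst (comp (un (b1 ω₀) t0) v) v := by
    have h1 : K ≤ (⌈K⌉₊ : ℝ) := Nat.le_ceil K
    have h2 : ((⌈K⌉₊ : ℕ) : ℝ) ≤ (c.a : ℝ) := by exact_mod_cast hca
    have h3 : ((c.a : ℤ) : ℝ) ≤ ((c.un (j0 - k) : ℤ) : ℝ) := by exact_mod_cast a_le_un hc (j0 - k)
    have h4 : 4 * c.g.N * (c.un (j0 - k) : ℤ) ≤ c.rho (j0 - k) := by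
      rw [hc.rho_eq]
      have h5 := hc.u_le_hu (j0 - k)
      have h6 := hc.g.N8
      have h7 := hc.un_pos (j0 - k)
      nlinarith
    have h5 : 4 * (c.g.N : ℝ) * ((c.un (j0 - k) : ℤ) : ℝ) ≤ c.rho (j0 - k) := by exact_mod_cast h4
    have h6 : 4 * (c.g.N : ℝ) * ((c.un (j0 - k) : ℤ) : ℝ) ≤
        4 * (c.g.N : ℝ) * dst (comp (un (b1 ω₀) t0) v) v := h5.trans hd1
    have h7 : 0 < 4 * (c.g.N : ℝ) := by rw [hcN]; linarith
    have h8 := le_of_mul_le_mul_left h6 h7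
    push_cast at h3 h8
    linarith
  have hreg := Rg_hyp (c.En (j0 - k) (c.sq (j0 - k) v)) ω₀ v
  have key := hcore c hc (Rg (c.En (j0 - k) (c.sq (j0 - k) v)) ω₀) ω₀ t0 v
    ((c.rho (j0 - k) : ℝ) ^ ((1 / 4) : ℝ)) hR (fi_ins hc hh) (fresh hc hh hEb le_rfl hv)
    hreg.1 hreg.2 hKd (stB (Bx v (c.rho j))) (loc_stB _)
    (fun U' col' h => stB_of_dst hc (d := dst (comp (un (b1 ω₀) t0) v) v)
      (by rw [← hj]; exact hd2) U' col' (by rw [hcl]; exact h))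
    (fun ω' => I (alv v j0 (k + 1) ω') * (r * GG v j0 (k + 1) ω')) (by
    intro ω hag
    have hfi : fi (c.En (j0 - k) (c.sq (j0 - k) v)) ω = t0 := fi_agr hc hag
    by_cases ha : alv v j0 (k + 1) ω
    · right
      have hhB : hit (Bx v (c.rho j)) ω := ha
      have hle : t0 ≤ fi (Bx v (c.rho j)) ω := by
        rw [← hfi]
        exact fi_mono hc hBE ω
      refine ⟨fi (Bx v (c.rho j)) ω, hle, fi_ins hc hhB,
        fresh hc hhB hBb le_rfl hv', ph_comp hc hhB hBb (cnn_Bx _ _) hv',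
        is_stB hc hhB hBb (cnn_Bx _ _) hv', ?_, ?_⟩
      · intro s hs1 hs2 hps hst
        exact no_stB hc hhB hBb (cnn_Bx _ _) hv' (Finset.Subset.refl _) hs2 hps hst
      · rw [I_true ha, one_mul]
        unfold GG
        rw [if_pos ha, ← hjdef, gq_eq, ← mul_assoc, r_rho hc (by rw [hr, hcl]), ← hj]
    · left
      rw [I_false ha, zero_mul])
  refine key.trans ?_
  have h2 := rho_pow (j := j0 - k) hc (d := dst (comp (un (b1 ω₀) t0) v) v) (B := 4 * N)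
    (by linarith) (by linarith) (by rw [← hcN]; exact hd1)
  have h3 : GGA v j0 k ω₀ = (c.rho (j0 - k) : ℝ) ^ ((1 / 4) : ℝ) *
      gv (comp (un (b1 ω₀) t0) v) (Om ω₀) v := by
    unfold GGA
    rw [if_pos hm, gq_eq]
  rw [h3]
  have h4 : (c.rho (j0 - k) : ℝ) ^ ((1 / 4) : ℝ) *
      dst (comp (un (b1 ω₀) t0) v) v ^ (-(1 / 4) : ℝ) * (e / (4 * N)) ≤ 4 * N * (e / (4 * N)) :=
    mul_le_mul_of_nonneg_right h2 (by positivity)
  have h5 : 4 * (N : ℝ) * (e / (4 * N)) = e := by field_simp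
  linarith

/-- **f4** -/
theorem f4_field (hOS : OS') : ∃ C0 : ℝ, 1 ≤ C0 ∧ ∀ l : ℕ, 700 ≤ l → ∀ e : ℝ, 0 < e → ∃ a0 : ℕ,
    ∀ c : Cf, c.Ok → c.l = l → a0 ≤ c.a → ∀ (v : Fc) (j0 k : ℕ), k < j0 →
    Bx v (c.rho (j0 - k)) ⊆ box c.m c.n → ∀ r : ℝ, r = (l : ℝ) ^ ((1 / 4) : ℝ) →
    ∀ ω : Finset c.al, alv v j0 k ω →
    CX Finset.univ (Rg (Bx v (c.rho (j0 - k))) ω) ω (fun ω' => I (alv v j0 (k + 1) ω')) ≤
      C0 / r * (GG v j0 k ω + e) := by
  obtain ⟨C0, hOS⟩ := hOS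
  have hC := abs_nonneg C0
  refine ⟨21 * |C0| + 1, by linarith, ?_⟩
  intro l hl e he
  have hlr : (700 : ℝ) ≤ l := by exact_mod_cast hl
  obtain ⟨K, hK, hK'⟩ := hOS (l / 7) (by linarith) e he
  refine ⟨⌈K⌉₊, ?_⟩
  intro c hc hcl hca v j0 k hk hb r hr ω₀ hal
  have hj : j0 - k = j0 - (k + 1) + 1 := by omega
  set j := j0 - (k + 1) with hjdef
  have hh : hit (Bx v (c.rho (j0 - k))) ω₀ := hal
  have hv : v ∈ Bx v (c.rho (j0 - k)) := self_mem_Bx (hc.rho_pos _).le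
  have hv' : v ∈ Bx v (c.rho j) := self_mem_Bx (hc.rho_pos j).le
  obtain ⟨hd1, hd2⟩ := dst_T hc hb hh
  set t0 := fi (Bx v (c.rho (j0 - k))) ω₀ with ht0
  have hEb : c.En (j0 - k) (c.sq (j0 - k) v) ⊆ box c.m c.n := (En_sub hc _ _).trans hb
  have hBE : Bx v (c.rho j) ⊆ c.En (j0 - k) (c.sq (j0 - k) v) := by
    rw [hj]; exact sub_En hc j v
  have hBb : Bx v (c.rho j) ⊆ box c.m c.n := hBE.trans hEb
  set d := dst (comp (un (b1 ω₀) t0) v) v with hd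
  have hrp : (1 : ℝ) ≤ c.rho (j0 - k) := by exact_mod_cast hc.rho_pos _
  have hKd : K ≤ d := by
    have h1 : K ≤ (⌈K⌉₊ : ℝ) := Nat.le_ceil K
    have h2 : ((⌈K⌉₊ : ℕ) : ℝ) ≤ (c.a : ℝ) := by exact_mod_cast hca
    have h3 : ((c.a : ℤ) : ℝ) ≤ ((c.un (j0 - k) : ℤ) : ℝ) := by exact_mod_cast a_le_un hc (j0 - k)
    have h4 : 2 * (c.un (j0 - k) : ℤ) ≤ c.rho (j0 - k) := by
      have := hc.hu_le_rho (j0 - k)
      have := hc.u_le_hu (j0 - k)
      have := hc.un_pos (j0 - k)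
      linarith
    have h5 : 2 * ((c.un (j0 - k) : ℤ) : ℝ) ≤ c.rho (j0 - k) := by exact_mod_cast h4
    push_cast at h3 h5
    linarith
  have hzu : v ∈ un (b1 ω₀) t0 := fresh hc hh hb le_rfl hv
  have h1 := hK' d hKd (comp (un (b1 ω₀) t0) v) (Om ω₀) v (st_at hc hzu) (mem_comp_self hzu)
    (by linarith) (by linarith)
  have hreg := Rg_hyp (Bx v (c.rho (j0 - k))) ω₀ v
  have h2 := tra (z := v) hc (fi_ins hc hh) hzu hreg.1 hreg.2
    (stop := fun U' _ => dst U' v < d / (l / 7))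
    (G := fun U' _ => if dst U' v < d / (l / 7) then 1 else 0)
    (fun _ _ _ _ => rfl) (fun _ _ _ _ => rfl) (fun _ _ => by split_ifs <;> norm_num)
    (F := fun ω' => I (alv v j0 (k + 1) ω')) (by
    intro ω hag
    have hfi : fi (Bx v (c.rho (j0 - k))) ω = t0 := fi_agr hc hag
    by_cases ha : alv v j0 (k + 1) ω
    · right
      have hhB : hit (Bx v (c.rho j)) ω := ha
      have hle : t0 ≤ fi (Bx v (c.rho j)) ω := by
        rw [← hfi]
        exact fi_mono hc (hBE.trans (En_sub hc _ _)) ω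
      obtain ⟨_, hx2⟩ := dst_T hc hBb hhB
      have hex : ∃ t, t0 ≤ t ∧ ph (orb (Om ω) p0 t) ∈ comp (un (b1 ω) t) v ∧
          dst (comp (un (b1 ω) t) v) v < d / (l / 7) := by
        refine ⟨fi (Bx v (c.rho j)) ω, hle, ph_comp hc hhB hBb (cnn_Bx _ _) hv', ?_⟩
        refine lt_of_le_of_lt hx2 ?_
        have h3 : (c.rho (j0 - k) : ℝ) = l * c.rho j := by
          rw [hj, rho_succ hc, hcl]
          push_cast
          ring
        have h4 : (1 : ℝ) ≤ c.rho j := by exact_mod_cast hc.rho_pos j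
        rw [lt_div_iff₀ (by linarith)]
        rw [h3] at hd1
        nlinarith
      obtain ⟨g1, g2, g3⟩ := Nat.find_spec hex
      have hle2 : Nat.find hex ≤ fi (Bx v (c.rho j)) ω := by
        by_contra hlt
        push Not at hlt
        refine Nat.find_min hex hlt ⟨hle, ph_comp hc hhB hBb (cnn_Bx _ _) hv', ?_⟩
        refine lt_of_le_of_lt hx2 ?_
        have h3 : (c.rho (j0 - k) : ℝ) = l * c.rho j := by
          rw [hj, rho_succ hc, hcl]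
          push_cast
          ring
        have h4 : (1 : ℝ) ≤ c.rho j := by exact_mod_cast hc.rho_pos j
        rw [lt_div_iff₀ (by linarith)]
        rw [h3] at hd1
        nlinarith
      refine ⟨Nat.find hex, g1, (fi_ins hc hhB).mono hle2, fresh hc hhB hBb hle2 hv', g2, g3, ?_, ?_⟩
      · intro s hs1 hs2 hps hst
        exact Nat.find_min hex hs2 ⟨hs1, hps, hst⟩
      · rw [I_true ha, if_pos g3]
    · left
      rw [I_false ha])
  have h3 : CX Finset.univ (Rg (Bx v (c.rho (j0 - k))) ω₀) ω₀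
      (fun ω' => I (alv v j0 (k + 1) ω')) ≤ C0 * ((l : ℝ) / 7) ^ (-(1 / 4) : ℝ) *
      (d ^ ((1 / 4) : ℝ) * gv (comp (un (b1 ω₀) t0) v) (Om ω₀) v + e) := by
    refine h2.trans ?_
    unfold Ev
    convert h1 using 4
  refine h3.trans ?_
  have hl0 : (0 : ℝ) < l := by linarith
  have hr0 : 0 < r := by rw [hr]; positivity
  have e7 : ((l : ℝ) / 7) ^ (-(1 / 4) : ℝ) = 7 ^ ((1 / 4) : ℝ) * (1 / r) := by
    rw [div_eq_mul_inv, Real.mul_rpow hl0.le (by norm_num), Real.rpow_neg hl0.le, ← hr,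
      Real.inv_rpow (by norm_num), Real.rpow_neg (by norm_num), inv_inv]
    ring
  have h4 : ((l : ℝ) / 7) ^ (-(1 / 4) : ℝ) ≤ 7 * (1 / r) := by
    rw [e7]
    apply mul_le_mul_of_nonneg_right _ (by positivity)
    calc (7 : ℝ) ^ ((1 / 4) : ℝ) ≤ 7 ^ (1 : ℝ) :=
        Real.rpow_le_rpow_of_exponent_le (by norm_num) (by norm_num)
      _ = 7 := Real.rpow_one _
  have hgv := gv_nonneg (comp (un (b1 ω₀) t0) v) (Om ω₀) v
  have hd0 : 0 ≤ d := by linarith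
  have h5 : d ^ ((1 / 4) : ℝ) ≤ 3 * (c.rho (j0 - k) : ℝ) ^ ((1 / 4) : ℝ) := by
    calc d ^ ((1 / 4) : ℝ) ≤ (3 * (c.rho (j0 - k) : ℝ)) ^ ((1 / 4) : ℝ) :=
          Real.rpow_le_rpow hd0 hd2 (by norm_num)
      _ = 3 ^ ((1 / 4) : ℝ) * (c.rho (j0 - k) : ℝ) ^ ((1 / 4) : ℝ) :=
          Real.mul_rpow (by norm_num) (by linarith)
      _ ≤ 3 * (c.rho (j0 - k) : ℝ) ^ ((1 / 4) : ℝ) := by
          apply mul_le_mul_of_nonneg_right _ (Real.rpow_nonneg (by linarith) _)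
          calc (3 : ℝ) ^ ((1 / 4) : ℝ) ≤ 3 ^ (1 : ℝ) :=
              Real.rpow_le_rpow_of_exponent_le (by norm_num) (by norm_num)
            _ = 3 := Real.rpow_one _
  have h6 : GG v j0 k ω₀ = (c.rho (j0 - k) : ℝ) ^ ((1 / 4) : ℝ) *
      gv (comp (un (b1 ω₀) t0) v) (Om ω₀) v := by
    unfold GG
    rw [if_pos hal, gq_eq]
  have hGG := GG_nonneg hc v j0 k ω₀
  have h7 : d ^ ((1 / 4) : ℝ) * gv (comp (un (b1 ω₀) t0) v) (Om ω₀) v + e ≤
      3 * (GG v j0 k ω₀ + e) := by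
    rw [h6]
    have := mul_le_mul_of_nonneg_right h5 hgv
    linarith
  have hr1 : 0 ≤ 1 / r := by positivity
  have hl7 : 0 ≤ ((l : ℝ) / 7) ^ (-(1 / 4) : ℝ) := by positivity
  have hd4 : 0 ≤ d ^ ((1 / 4) : ℝ) * gv (comp (un (b1 ω₀) t0) v) (Om ω₀) v + e := by positivity
  calc C0 * ((l : ℝ) / 7) ^ (-(1 / 4) : ℝ) *
        (d ^ ((1 / 4) : ℝ) * gv (comp (un (b1 ω₀) t0) v) (Om ω₀) v + e)
      ≤ |C0| * (7 * (1 / r)) * (3 * (GG v j0 k ω₀ + e)) := by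
        apply mul_le_mul _ h7 hd4 (by positivity)
        exact mul_le_mul (le_abs_self _) h4 hl7 hC
    _ = 21 * |C0| / r * (GG v j0 k ω₀ + e) := by ring
    _ ≤ (21 * |C0| + 1) / r * (GG v j0 k ω₀ + e) := by
        apply mul_le_mul_of_nonneg_right _ (by linarith)
        exact div_le_div_of_nonneg_right (by linarith) hr0.le

/-- the bound of the potential -/
theorem GG_le (hc : c.Ok) {v : Fc} {j0 k : ℕ} (hb : Bx v (c.rho (j0 - k)) ⊆ box c.m c.n)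
    (ω : Finset c.al) : GG v j0 k ω ≤ 4 := by
  by_cases hal : alv v j0 k ω
  · have hh : hit (Bx v (c.rho (j0 - k))) ω := hal
    have hv : v ∈ Bx v (c.rho (j0 - k)) := self_mem_Bx (hc.rho_pos _).le
    obtain ⟨hd1, _⟩ := dst_T hc hb hh
    have hzu := fresh hc hh hb le_rfl hv
    obtain ⟨h1, h2⟩ := gv_le_dst (col := Om ω) (st_at hc hzu).dom (mem_comp_self hzu)
    have h3 := rho_pow (j := j0 - k) hc h1 (by norm_num) hd1
    unfold GG
    rw [if_pos hal, gq_eq]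
    have h4 : 0 ≤ (c.rho (j0 - k) : ℝ) ^ ((1 / 4) : ℝ) := Real.rpow_nonneg (rho_nonneg hc _) _
    have := mul_le_mul_of_nonneg_left h2 h4
    linarith
  · unfold GG
    rw [if_neg hal]
    norm_num

end Pool.Agent.H74.Lv
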