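import Pool.Agent.H74.Lv.Fst

set_option autoImplicit false

/-! MP_2e6055, module INST (helper74): the potentials `GG`, `GGA` of the system of one site. -/

namespace Pool.Agent.H74.Lv

open Pool.Agent.H7.UC Pool.Agent.H75.Perc Pool.Agent.H93.SM Pool.Agent.H75.Lv
open Pool.Agent.H74.Tri (Pos pl pr ph pe pb Bi stp orb IsTip St Rev ExitAt IsExit Jn chg tch comp
  mem_comp comp_sub mem_comp_self comp_adj comp_conn comp_eq_of_mem adj_hl adj_hr adj_lr adjF_symm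
  un mem_un ext box em p0 cf Loc inE_pe ext_em ext_out exists_em exists_first em_not_zero exists_exit
  tip_comp tipF_of IsTip_congr un_anti St_un)
open Pool.Agent.H75.Per (CX I IsStop Meas agree_mono agree_iff)
open Classical

attribute [-instance] instDecidableEqSum

variable {c : Cf}

/-! ### The Green function is local -/

theorem adj_bl (q : Pos) : adjF (pb q) (pl q) := by
  obtain ⟨v, k⟩ := q
  show adjF (fc (nb v k) k) (fc v (k + 1))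
  have h : fc v (k + 1) = fc (nb v k) (k + 2) := (fc_nb2 v k).symm
  rw [h]
  exact Pool.Agent.H74.Tri.adjF_fc _ (by
    have : ∀ k : Fin 3, k ≠ k + 2 := by decide
    exact this k)

theorem adj_br (q : Pos) : adjF (pb q) (pr q) := by
  obtain ⟨v, k⟩ := q
  show adjF (fc (nb v k) k) (fc v (k + 2))
  have h : fc v (k + 2) = fc (nb v k) (k + 1) := (fc_nb1 v k).symm
  rw [h]
  exact Pool.Agent.H74.Tri.adjF_fc _ (by
    have : ∀ k : Fin 3, k ≠ k + 1 := by decide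
    exact this k)

theorem IsExit_congr {U : Finset Fc} {Ω Ω' : Fc → Bool} {q : Pos}
    (h : ∀ f, f ∉ U → tch ↑U f → Ω f = Ω' f) (hq : IsExit U Ω q) : IsExit U Ω' q := by
  refine ⟨hq.1, hq.2.1, hq.2.2.1, ?_, ?_⟩
  · rw [← h _ hq.2.1 ⟨pb q, by exact_mod_cast hq.1, adjF_symm (adj_bl q)⟩]
    exact hq.2.2.2.1
  · rw [← h _ hq.2.2.1 ⟨pb q, by exact_mod_cast hq.1, adjF_symm (adj_br q)⟩]
    exact hq.2.2.2.2

theorem TipE_congr {U : Finset Fc} {Ω Ω' : Fc → Bool}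
    (h : ∀ f, f ∉ U → tch ↑U f → Ω f = Ω' f) : TipE U Ω = TipE U Ω' := by
  funext t
  have h' : ∀ f, f ∉ U → tch ↑U f → Ω' f = Ω f := fun f h1 h2 => (h f h1 h2).symm
  refine propext ⟨?_, ?_⟩
  · rintro ⟨p, q, h1, h2, h3, h4⟩
    exact ⟨p, q, IsTip_congr h h1, h2, IsExit_congr h h3, h4⟩
  · rintro ⟨p, q, h1, h2, h3, h4⟩
    exact ⟨p, q, IsTip_congr h' h1, h2, IsExit_congr h' h3, h4⟩

theorem gv_loc (z : Fc) : Loc (fun U col => gv U col z) := by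
  intro U Ω Ω' h
  show gv U Ω z = gv U Ω' z
  unfold gv sn
  rw [TipE_congr h]

theorem gv_nonneg (U : Finset Fc) (col : Fc → Bool) (z : Fc) : 0 ≤ gv U col z := by
  have h1 : 0 ≤ crad U z := by
    unfold crad
    split_ifs
    · exact norm_nonneg _
    · exact le_rfl
  have h2 := Pool.Agent.H21.SM.sn_nonneg U col z
  unfold gv
  positivity

/-! ### Potentials -/

/-- normalised potential of the component of `v` at the index `t` -/
noncomputable def gq (c : Cf) (j : ℕ) (v : Fc) (ω : Finset c.al) (t : ℕ) : ℝ :=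
  (c.rho j : ℝ) ^ ((1 / 4) : ℝ) * gv (unx (box c.m c.n) (Om ω) p0 t v) (Om ω) v

/-- potential at the first visit of `Bx v ρ` -/
noncomputable def GG (v : Fc) (j0 k : ℕ) (ω : Finset c.al) : ℝ :=
  if alv v j0 k ω then gq c (j0 - k) v ω (fi (Bx v (c.rho (j0 - k))) ω) else 0

/-- potential at the attempt -/
noncomputable def GGA (v : Fc) (j0 k : ℕ) (ω : Finset c.al) : ℝ :=
  if mad v j0 k ω then gq c (j0 - k) v ω (fi (c.En (j0 - k) (c.sq (j0 - k) v)) ω) else 0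

theorem gq_eq (j : ℕ) (v : Fc) (ω : Finset c.al) (t : ℕ) : gq c j v ω t =
    (c.rho j : ℝ) ^ ((1 / 4) : ℝ) * gv (comp (un (b1 ω) t) v) (Om ω) v := by
  unfold gq
  rw [unx_eq]

theorem rho_nonneg (hc : c.Ok) (j : ℕ) : (0 : ℝ) ≤ (c.rho j : ℝ) := by
  exact_mod_cast (hc.rho_pos j).le

theorem gq_nonneg (hc : c.Ok) (j : ℕ) (v : Fc) (ω : Finset c.al) (t : ℕ) : 0 ≤ gq c j v ω t :=
  mul_nonneg (Real.rpow_nonneg (rho_nonneg hc j) _) (gv_nonneg _ _ _)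

theorem GG_nonneg (hc : c.Ok) (v : Fc) (j0 k : ℕ) (ω : Finset c.al) : 0 ≤ GG v j0 k ω := by
  unfold GG
  split_ifs
  · exact gq_nonneg hc _ _ _ _
  · exact le_rfl

theorem GGA_nonneg (hc : c.Ok) (v : Fc) (j0 k : ℕ) (ω : Finset c.al) : 0 ≤ GGA v j0 k ω := by
  unfold GGA
  split_ifs
  · exact gq_nonneg hc _ _ _ _
  · exact le_rfl

theorem gq_agr {ω ω' : Finset c.al} {t : ℕ} (h : Agr (Om ω) (Om ω') t) (j : ℕ) (v : Fc) :
    gq c j v ω' t = gq c j v ω t := by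
  rw [gq_eq, gq_eq, un_agr h]
  congr 1
  refine gv_loc v _ _ _ fun f hf ht => ?_
  exact Om_agr_off h (Pool.Agent.H74.Tri.tch_comp hf ht)

theorem mGG (hc : c.Ok) (v : Fc) (j0 k : ℕ) :
    Meas (Finset.univ : Finset c.al) (Rg (Bx v (c.rho (j0 - k)))) (GG v j0 k) := by
  intro ω h1 ω' h1' h
  have e1 : alv v j0 k ω' = alv v j0 k ω := meas_hit hc _ ω h1 ω' h1' h
  have hA := agr_Rg h
  have e2 := fi_agr hc hA
  unfold GG
  rw [e1, e2, gq_agr hA]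

/-! ### Distances -/

theorem cnn_Bx (z : Fc) (s : ℤ) : Cnn (Bx z s) := by
  intro f hf g hg
  have hs : 0 ≤ s := by
    rw [mem_Bx] at hf
    exact (abs_nonneg _).trans hf.1
  obtain ⟨n, rfl⟩ := Int.eq_ofNat_of_zero_le hs
  exact (Pool.Agent.H58.TA.cn_Bx z n f hf g hg).2

theorem le_dst {U : Finset Fc} {z : Fc} {s : ℤ} (hs : 0 ≤ s) (h : Bx z s ⊆ U) :
    4 / 5 * (s : ℝ) - 1 ≤ dst U z := by
  obtain ⟨n, rfl⟩ := Int.eq_ofNat_of_zero_le hs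
  apply Pool.Agent.H58.TA.le_dst_of
  intro f hf
  by_contra hn
  have h1 : f ∉ Pool.Agent.H58.TA.Bx z n := fun h' => hn (h h')
  have h2 := Pool.Agent.H58.TA.le_norm_of_not_mem h1
  push_cast at hf
  linarith

theorem dst_le {U : Finset Fc} {z : Fc} {s : ℤ} (hs : 0 ≤ s) {q : Pos} (hq : ph q ∈ Bx z s)
    (h : pl q ∉ U) : dst U z ≤ 2 * (s : ℝ) + 1 := by
  obtain ⟨n, rfl⟩ := Int.eq_ofNat_of_zero_le hs
  have h1 := Pool.Agent.H58.TA.dst_le_out (z := z) h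
  have h2 : ‖ctr (ph q) - ctr z‖ ≤ 2 * (n : ℝ) := Pool.Agent.H58.TA.norm_le_of_mem hq
  have h3 := Pool.Agent.H58.TA.norm_adj (adj_hl q)
  have h4 : ‖ctr (pl q) - ctr z‖ ≤ ‖ctr (ph q) - ctr z‖ + ‖ctr (ph q) - ctr (pl q)‖ := by
    rw [show ctr (pl q) - ctr z = (ctr (ph q) - ctr z) - (ctr (ph q) - ctr (pl q)) by ring]
    exact norm_sub_le _ _
  push_cast
  linarith

theorem rho_pow (hc : c.Ok) {j : ℕ} {d B : ℝ} (hd : 0 < d) (hB : 1 ≤ B)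
    (h : (c.rho j : ℝ) ≤ B * d) :
    (c.rho j : ℝ) ^ ((1 / 4) : ℝ) * d ^ (-(1 / 4) : ℝ) ≤ B := by
  have h0 := rho_nonneg hc j
  have h1 : (c.rho j : ℝ) ^ ((1 / 4) : ℝ) ≤ (B * d) ^ ((1 / 4) : ℝ) :=
    Real.rpow_le_rpow h0 h (by norm_num)
  have h2 : (B * d) ^ ((1 / 4) : ℝ) = B ^ ((1 / 4) : ℝ) * d ^ ((1 / 4) : ℝ) :=
    Real.mul_rpow (by linarith) hd.le
  have h3 : B ^ ((1 / 4) : ℝ) ≤ B := by
    calc B ^ ((1 / 4) : ℝ) ≤ B ^ (1 : ℝ) := Real.rpow_le_rpow_of_exponent_le hB (by norm_num)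
      _ = B := Real.rpow_one B
  have h4 : d ^ ((1 / 4) : ℝ) * d ^ (-(1 / 4) : ℝ) = 1 := by
    rw [← Real.rpow_add hd]; norm_num
  have h5 : 0 ≤ d ^ (-(1 / 4) : ℝ) := Real.rpow_nonneg hd.le _
  calc (c.rho j : ℝ) ^ ((1 / 4) : ℝ) * d ^ (-(1 / 4) : ℝ)
      ≤ (B * d) ^ ((1 / 4) : ℝ) * d ^ (-(1 / 4) : ℝ) := mul_le_mul_of_nonneg_right h1 h5
    _ = B ^ ((1 / 4) : ℝ) * (d ^ ((1 / 4) : ℝ) * d ^ (-(1 / 4) : ℝ)) := by rw [h2]; ring
    _ = B ^ ((1 / 4) : ℝ) := by rw [h4, mul_one]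
    _ ≤ B := h3

theorem gv_le_dst {U : Finset Fc} {col : Fc → Bool} {z : Fc} (hU : IsDom U) (hz : z ∈ U) :
    0 < dst U z ∧ gv U col z ≤ dst U z ^ (-(1 / 4) : ℝ) := by
  obtain ⟨_, _, _, h1, _, _⟩ := Pool.Agent.H84.SM.ch U z hU hz
  have hd : 0 < dst U z := by linarith
  refine ⟨hd, ?_⟩
  have h2 := Pool.Agent.H58.TA.gv_le (col := col) hU hz
  have h3 : 0 < dst U z ^ (-(1 / 4) : ℝ) := Real.rpow_pos_of_pos hd _
  have h4 : dst U z ^ (-(1 / 4) : ℝ) * dst U z ^ ((1 / 4) : ℝ) = 1 := by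
    rw [← Real.rpow_add hd]; norm_num
  calc gv U col z = dst U z ^ (-(1 / 4) : ℝ) * (dst U z ^ ((1 / 4) : ℝ) * gv U col z) := by
        rw [← mul_assoc, h4, one_mul]
    _ ≤ dst U z ^ (-(1 / 4) : ℝ) * 1 := mul_le_mul_of_nonneg_left h2 h3.le
    _ = _ := mul_one _

end Pool.Agent.H74.Lv
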