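import Pool.Agent.H74.Tri.Glue

set_option autoImplicit false

/-! MP_2e6055 (helper74): one-sided transfer from the main exploration to the chain of a face. -/

namespace Pool.Agent.H74.Tri

open Pool.Agent.H7.UC Pool.Agent.H93.SM Pool.Agent.H75.Per

variable {m n : ℕ} {α : Type*} {ι : Fin m × Fin n → α} {E S ω₀ : Finset α}

/-- the component does not change while it is not entered -/
theorem comp_const {ω : Fin m × Fin n → Bool} {z : Fc} {a b : ℕ} (hz : z ∈ un ω a)
    (h : ∀ s, a ≤ s → s < b → ph (orb (ext m n ω) p0 s) ∉ comp (un ω a) z) :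
    ∀ s, a ≤ s → s ≤ b → comp (un ω s) z = comp (un ω a) z ∧ z ∈ un ω s := by
  intro s hs
  induction s, hs using Nat.le_induction with
  | base => intro _; exact ⟨rfl, hz⟩
  | succ s hs ih =>
    intro hs'
    obtain ⟨e1, e2⟩ := ih (by omega)
    have h7 : ph (orb (ext m n ω) p0 s) ∉ comp (un ω s) z := by rw [e1]; exact h s hs (by omega)
    refine ⟨(comp_succ_out h7).trans e1, ?_⟩
    classical
    rw [un_succ, Finset.mem_sdiff, Finset.mem_singleton]
    exact ⟨e2, fun h => h7 (h ▸ mem_comp_self e2)⟩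

/-- **TRANSFER.**  If `F` is at most the value of `G ≥ 0` at the first time at which the exploration is in
the component of `z` and `stop` holds (and `F ≤ 0` if there is no such time), then the conditional
expectation of `F` is at most the expectation of `G` along the chain stopped by `stop`. -/
theorem trans_le (hm : 1 ≤ m) (hn : 1 ≤ n) (hι : Function.Injective ι) (h0 : ω₀ ⊆ E) {t0 N0 : ℕ}
    (hN0 : ExitAt (box m n) (ext m n (cf ι ω₀)) p0 N0) (ht0 : t0 ≤ N0) {z : Fc}
    (hz : z ∈ un (cf ι ω₀) t0)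
    (hE : ∀ x, em x ∈ comp (un (cf ι ω₀) t0) z → ι x ∈ E ∧ ι x ∉ S)
    (hS : ∀ x, em x ∈ Rev (ext m n (cf ι ω₀)) p0 t0 → ι x ∈ S)
    {stop : Finset Fc → (Fc → Bool) → Prop} {G : Finset Fc → (Fc → Bool) → ℝ} (hs : Loc stop)
    (hG : Loc G) (hG0 : ∀ U col, 0 ≤ G U col) {F : Finset α → ℝ}
    (hF : ∀ ω ⊆ E, Agr (cf ι ω₀) (cf ι ω) t0 → ∀ N, ExitAt (box m n) (ext m n (cf ι ω)) p0 N →
      F ω ≤ 0 ∨ ∃ t, t0 ≤ t ∧ t ≤ N ∧ z ∈ un (cf ι ω) t ∧
        ph (orb (ext m n (cf ι ω)) p0 t) ∈ comp (un (cf ι ω) t) z ∧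
        stop (comp (un (cf ι ω) t) z) (ext m n (cf ι ω)) ∧
        (∀ s, t0 ≤ s → s < t → ph (orb (ext m n (cf ι ω)) p0 s) ∈ comp (un (cf ι ω) s) z →
          ¬ stop (comp (un (cf ι ω) s) z) (ext m n (cf ι ω))) ∧
        F ω ≤ G (comp (un (cf ι ω) t) z) (ext m n (cf ι ω))) :
    CX E S ω₀ F ≤ Ev z (fun U c _ => stop U c) (fun U c _ => G U c)
      (comp (un (cf ι ω₀) t0) z) (ext m n (cf ι ω₀)) [] := by
  classical
  have hbox : comp (un (cf ι ω₀) t0) z ⊆ box m n := fun f hf =>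
    (mem_un.1 (comp_sub _ _ hf)).1
  unfold Ev
  rw [← CX_crun (stop := fun U c _ => stop U c) hι (fun U c _ => G U c) E _ _ _ _ S ω₀ h0 hbox hE]
  refine CX_mono ?_
  intro ω hω hag
  have hA := agr_of hS hag
  obtain ⟨N, hN⟩ := exists_exit hm hn (cf ι ω)
  have htN : t0 ≤ N := Agr.le_exit hm hn hA ht0 hN0 hN
  have hun : un (cf ι ω) t0 = un (cf ι ω₀) t0 := hA.un le_rfl
  obtain ⟨t', h1, h2, h3, h4, h5, h6⟩ := crun_eq (ω := cf ι ω) hm hn hs hG hN
    (comp (un (cf ι ω₀) t0) z).card t0 (comp (un (cf ι ω₀) t0) z) (ext m n (cf ι ω₀)) [] htN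
    (by rw [hun]; exact hz) (by rw [hun]) (fun f hf hft => hA.tch hf hft) le_rfl
  rw [h6]
  rcases hF ω hω hA N hN with h | ⟨t, g1, g2, g3, g4, g5, g6, g7⟩
  · exact h.trans (hG0 _ _)
  · have hle : t' ≤ t := by
      by_contra hlt
      exact (h5 t g1 (by omega)).1 g5
    rcases Nat.eq_or_lt_of_le hle with he | hlt
    · rw [he]; exact g7
    · have hst : stop (comp (un (cf ι ω) t') z) (ext m n (cf ι ω)) := by
        rcases h4 with h4 | h4 | h4
        · exact h4
        · exfalso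
          have h7 : z ∈ Rev (ext m n (cf ι ω)) p0 (t' + 1) := Rev_succ_iff.2 (Or.inr h4.symm)
          exact (mem_un.1 g3).2 (Rev.mono (by omega) h7)
        · omega
      have key : ∀ s, t' ≤ s → s < t →
          ph (orb (ext m n (cf ι ω)) p0 s) ∉ comp (un (cf ι ω) t') z := by
        intro s
        induction s using Nat.strong_induction_on with
        | _ s ih =>
          intro hs1 hs2 hmem
          have hc := comp_const (b := s) h3 (fun r hr1 hr2 => ih r hr2 hr1 (by omega)) s hs1 le_rfl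
          exact g6 s (by omega) hs2 (by rw [hc.1]; exact hmem) (by rw [hc.1]; exact hst)
      have hc := comp_const (b := t) h3 key t hle le_rfl
      rw [hc.1] at g7
      exact g7

end Pool.Agent.H74.Tri
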